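import Mathlib

/-!
# MP_476b1b_an : no exponential orthonormal basis for overlapping symmetric additive spaces

For `-1 < t < 0` (in particular for `-1/2 ≤ t < 0`, and in particular for the Plus Space
`t = -1/2`) the space `L²(μ_t)`, `μ_t = m_{[t,t+1]} ⊗ δ_0 + δ_0 ⊗ m_{[t,t+1]}`, has no
orthonormal basis of exponentials.
-/

open MeasureTheory

namespace Pool.Agent.Results.MP_476b1b_an.PlusSpaceNoONB

/-- The measure `μ_t = m_{I_t} ⊗ δ_0 + δ_0 ⊗ m_{I_t}` on `ℝ × ℝ`, where `I_t = [t, t+1]` and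
`m` is Lebesgue measure. -/
noncomputable def mu (t : ℝ) : Measure (ℝ × ℝ) :=
  ((volume : Measure ℝ).restrict (Set.Icc t (t + 1))).prod (Measure.dirac 0) +
    (Measure.dirac 0).prod ((volume : Measure ℝ).restrict (Set.Icc t (t + 1)))

/-- The exponential `e_l(x, y) = exp (2 π i (l₁ x + l₂ y))`. -/
noncomputable def expo (l p : ℝ × ℝ) : ℂ :=
  Complex.exp (2 * Real.pi * Complex.I * ((l.1 * p.1 + l.2 * p.2 : ℝ) : ℂ))

/-- The exponentials `e_l`, `l ∈ Λ`, normalised by the factor `1/√2`, form an orthonormal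
(Hilbert) basis of `L²(μ_t)`. -/
def IsExpONB (t : ℝ) (Λ : Set (ℝ × ℝ)) : Prop :=
  ∃ b : HilbertBasis Λ ℂ (Lp ℂ 2 (mu t)),
    ∀ l : Λ, (b l : ℝ × ℝ → ℂ) =ᵐ[mu t] fun p => ((Real.sqrt 2 : ℝ) : ℂ)⁻¹ * expo l p

instance (t : ℝ) : IsFiniteMeasure (mu t) := by
  unfold mu
  infer_instance

lemma mu_eq (t : ℝ) : mu t =
    Measure.map (fun x : ℝ => (x, (0:ℝ))) ((volume : Measure ℝ).restrict (Set.Icc t (t + 1))) +
    Measure.map (fun y : ℝ => ((0:ℝ), y)) ((volume : Measure ℝ).restrict (Set.Icc t (t + 1))) := by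
  unfold mu
  rw [Measure.prod_dirac, Measure.dirac_prod]

lemma integral_mu (t : ℝ) (H : ℝ × ℝ → ℂ) (hH : Measurable H) (hi : Integrable H (mu t)) :
    ∫ p, H p ∂(mu t) = (∫ x in Set.Icc t (t + 1), H (x, 0)) +
      ∫ y in Set.Icc t (t + 1), H (0, y) := by
  rw [mu_eq] at hi ⊢
  have h1 : Measurable (fun x : ℝ => (x, (0:ℝ))) := by fun_prop
  have h2 : Measurable (fun y : ℝ => ((0:ℝ), y)) := by fun_prop
  rw [integral_add_measure hi.left_of_add_measure hi.right_of_add_measure]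
  rw [integral_map h1.aemeasurable hH.aestronglyMeasurable,
    integral_map h2.aemeasurable hH.aestronglyMeasurable]

/-- The triangle function. -/
noncomputable def tri (δ x : ℝ) : ℝ := max (δ - |x|) 0

lemma tri_nonneg (δ x : ℝ) : 0 ≤ tri δ x := le_max_right _ _

lemma tri_le {δ : ℝ} (hδ : 0 ≤ δ) (x : ℝ) : tri δ x ≤ δ := by
  unfold tri
  apply max_le
  · linarith [abs_nonneg x]
  · exact hδ

lemma continuous_tri (δ : ℝ) : Continuous (tri δ) := by
  unfold tri; fun_prop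

/-- antiderivative computation -/
lemma tri_integral_ne {δ η : ℝ} (hδ : 0 < δ) (hη : η ≠ 0) :
    ∫ x in (-δ)..δ, ((tri δ x : ℝ) : ℂ) * Complex.exp (Complex.I * η * x) =
      ((2 * (1 - Real.cos (η * δ)) / η ^ 2 : ℝ) : ℂ) := by
  have hη' : (η : ℂ) ≠ 0 := by exact_mod_cast hη
  have hcont : Continuous fun x : ℝ => ((tri δ x : ℝ) : ℂ) * Complex.exp (Complex.I * η * x) := by
    have := continuous_tri δ
    fun_prop
  rw [← intervalIntegral.integral_add_adjacent_intervals (b := 0)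
    (hcont.intervalIntegrable _ _) (hcont.intervalIntegrable _ _)]
  have e1 : ∫ x in (-δ)..0, ((tri δ x : ℝ) : ℂ) * Complex.exp (Complex.I * η * x) =
      ∫ x in (-δ)..0, ((δ : ℂ) + x) * Complex.exp (Complex.I * η * x) := by
    apply intervalIntegral.integral_congr
    intro x hx
    rw [Set.uIcc_of_le (by linarith)] at hx
    simp only
    congr 1
    unfold tri
    rw [abs_of_nonpos hx.2, max_eq_left (by linarith [hx.1])]
    push_cast; ring
  have e2 : ∫ x in (0:ℝ)..δ, ((tri δ x : ℝ) : ℂ) * Complex.exp (Complex.I * η * x) =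
      ∫ x in (0:ℝ)..δ, ((δ : ℂ) - x) * Complex.exp (Complex.I * η * x) := by
    apply intervalIntegral.integral_congr
    intro x hx
    rw [Set.uIcc_of_le (by linarith)] at hx
    simp only
    congr 1
    unfold tri
    rw [abs_of_nonneg hx.1, max_eq_left (by linarith [hx.2])]
    push_cast; ring
  rw [e1, e2]
  have hI : Complex.I * Complex.I = -1 := Complex.I_mul_I
  have d1 : ∀ x ∈ Set.uIcc (-δ) 0, HasDerivAt (fun x : ℝ =>
      ((δ : ℂ) + x) * Complex.exp (Complex.I * η * x) * (-Complex.I / η) +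
        Complex.exp (Complex.I * η * x) / η ^ 2)
      (((δ : ℂ) + x) * Complex.exp (Complex.I * η * x)) x := by
    intro x _
    have hx1 : HasDerivAt (fun x : ℝ => (x : ℂ)) 1 x := Complex.ofRealCLM.hasDerivAt
    have hx2 : HasDerivAt (fun x : ℝ => (δ : ℂ) + x) 1 x := hx1.const_add _
    have hx3 : HasDerivAt (fun x : ℝ => Complex.exp (Complex.I * η * x))
        (Complex.exp (Complex.I * η * x) * (Complex.I * η * 1)) x :=
      (hx1.const_mul (Complex.I * (η:ℂ))).cexp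
    have := ((hx2.mul hx3).mul_const (-Complex.I / (η:ℂ))).add (hx3.div_const ((η:ℂ) ^ 2))
    refine this.congr_deriv ?_
    field_simp
    ring_nf
    rw [Complex.I_sq]
    ring
  have d2 : ∀ x ∈ Set.uIcc (0:ℝ) δ, HasDerivAt (fun x : ℝ =>
      ((δ : ℂ) - x) * Complex.exp (Complex.I * η * x) * (-Complex.I / η) -
        Complex.exp (Complex.I * η * x) / η ^ 2)
      (((δ : ℂ) - x) * Complex.exp (Complex.I * η * x)) x := by
    intro x _
    have hx1 : HasDerivAt (fun x : ℝ => (x : ℂ)) 1 x := Complex.ofRealCLM.hasDerivAt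
    have hx2 : HasDerivAt (fun x : ℝ => (δ : ℂ) - x) (-1) x := by
      simpa using hx1.const_sub (δ : ℂ)
    have hx3 : HasDerivAt (fun x : ℝ => Complex.exp (Complex.I * η * x))
        (Complex.exp (Complex.I * η * x) * (Complex.I * η * 1)) x :=
      (hx1.const_mul (Complex.I * (η:ℂ))).cexp
    have := ((hx2.mul hx3).mul_const (-Complex.I / (η:ℂ))).sub (hx3.div_const ((η:ℂ) ^ 2))
    refine this.congr_deriv ?_
    field_simp
    ring_nf
    rw [Complex.I_sq]
    ring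
  rw [intervalIntegral.integral_eq_sub_of_hasDerivAt d1 (by
      apply Continuous.intervalIntegrable; fun_prop),
    intervalIntegral.integral_eq_sub_of_hasDerivAt d2 (by
      apply Continuous.intervalIntegrable; fun_prop)]
  have hc : Complex.exp (Complex.I * η * δ) + Complex.exp (Complex.I * η * (-δ : ℝ)) =
      2 * (Real.cos (η * δ) : ℂ) := by
    rw [Complex.ofReal_cos, Complex.cos]
    push_cast
    have a1 : Complex.I * η * δ = (η:ℂ) * δ * Complex.I := by ring
    have a2 : Complex.I * η * (-δ) = -((η:ℂ) * δ) * Complex.I := by ring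
    rw [a1, a2]
    ring
  push_cast at hc ⊢
  simp only [mul_zero, Complex.exp_zero, add_neg_cancel, sub_self, zero_mul]
  have hc' : Complex.exp (Complex.I * η * δ) =
      2 * Complex.cos (η * δ) - Complex.exp (Complex.I * η * (-δ)) := by
    rw [← hc]; ring
  rw [hc']
  field_simp
  ring

lemma tri_integral_zero {δ : ℝ} (hδ : 0 < δ) :
    ∫ x in (-δ)..δ, ((tri δ x : ℝ) : ℂ) = ((δ ^ 2 : ℝ) : ℂ) := by
  rw [intervalIntegral.integral_ofReal]
  congr 1
  have hcont : Continuous (tri δ) := continuous_tri δ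
  rw [← intervalIntegral.integral_add_adjacent_intervals (b := 0)
    (hcont.intervalIntegrable _ _) (hcont.intervalIntegrable _ _)]
  have e1 : ∫ x in (-δ)..0, tri δ x = ∫ x in (-δ)..0, (δ + x) := by
    apply intervalIntegral.integral_congr
    intro x hx
    rw [Set.uIcc_of_le (by linarith)] at hx
    unfold tri
    rw [abs_of_nonpos hx.2, max_eq_left (by linarith [hx.1])]
    ring
  have e2 : ∫ x in (0:ℝ)..δ, tri δ x = ∫ x in (0:ℝ)..δ, (δ - x) := by
    apply intervalIntegral.integral_congr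
    intro x hx
    rw [Set.uIcc_of_le (by linarith)] at hx
    unfold tri
    rw [abs_of_nonneg hx.1, max_eq_left (by linarith [hx.2])]
  rw [e1, e2]
  rw [intervalIntegral.integral_add (by simp) (by simp),
    intervalIntegral.integral_sub (by simp) (by simp)]
  simp only [intervalIntegral.integral_const, integral_id, smul_eq_mul]
  ring

/-- The (nonnegative) Fourier transform of the triangle function. -/
noncomputable def Tr (δ η : ℝ) : ℝ :=
  if η = 0 then δ ^ 2 else 2 * (1 - Real.cos (η * δ)) / η ^ 2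

lemma Tr_nonneg (δ η : ℝ) : 0 ≤ Tr δ η := by
  unfold Tr
  split_ifs
  · positivity
  · have := Real.cos_le_one (η * δ)
    have h : 0 ≤ 2 * (1 - Real.cos (η * δ)) := by linarith
    positivity

lemma tri_integral {δ : ℝ} (hδ : 0 < δ) (η : ℝ) :
    ∫ x in (-δ)..δ, ((tri δ x : ℝ) : ℂ) * Complex.exp (Complex.I * η * x) = ((Tr δ η : ℝ) : ℂ) := by
  unfold Tr
  split_ifs with h
  · subst h
    simpa using tri_integral_zero hδ
  · exact tri_integral_ne hδ h

lemma tri_setIntegral {t δ : ℝ} (hδ : 0 < δ) (h1 : δ ≤ -t) (h2 : δ ≤ t + 1) (η : ℝ) :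
    ∫ x in Set.Icc t (t + 1), ((tri δ x : ℝ) : ℂ) * Complex.exp (Complex.I * η * x) =
      ((Tr δ η : ℝ) : ℂ) := by
  rw [← tri_integral hδ η, intervalIntegral.integral_of_le (by linarith)]
  apply setIntegral_eq_of_subset_of_forall_sdiff_eq_zero measurableSet_Icc
  · intro x hx
    exact ⟨by linarith [hx.1], by linarith [hx.2]⟩
  · intro x hx
    have : tri δ x = 0 := by
      unfold tri
      apply max_eq_right
      by_contra hcon
      push Not at hcon
      have h3 : |x| < δ := by linarith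
      rw [abs_lt] at h3
      exact hx.2 ⟨h3.1, h3.2.le⟩
    rw [this]; simp

/-- Test function carried by the first axis. -/
noncomputable def F (δ a : ℝ) (p : ℝ × ℝ) : ℂ :=
  if p.2 = 0 then ((tri δ p.1 : ℝ) : ℂ) * Complex.exp (Complex.I * ((2 * Real.pi * a : ℝ) : ℂ) * p.1)
    else 0

/-- Test function carried by the second axis. -/
noncomputable def G (δ a : ℝ) (p : ℝ × ℝ) : ℂ :=
  if p.1 = 0 then ((tri δ p.2 : ℝ) : ℂ) * Complex.exp (Complex.I * ((2 * Real.pi * a : ℝ) : ℂ) * p.2)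
    else 0

lemma measurable_F (δ a : ℝ) : Measurable (F δ a) := by
  unfold F
  have hc := continuous_tri δ
  refine Measurable.ite (measurableSet_eq_fun measurable_snd measurable_const) ?_ measurable_const
  have h : Continuous fun p : ℝ × ℝ => ((tri δ p.1 : ℝ) : ℂ) *
      Complex.exp (Complex.I * ((2 * Real.pi * a : ℝ) : ℂ) * p.1) := by fun_prop
  exact h.measurable

lemma measurable_G (δ a : ℝ) : Measurable (G δ a) := by
  unfold G
  have hc := continuous_tri δ
  refine Measurable.ite (measurableSet_eq_fun measurable_fst measurable_const) ?_ measurable_const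
  have h : Continuous fun p : ℝ × ℝ => ((tri δ p.2 : ℝ) : ℂ) *
      Complex.exp (Complex.I * ((2 * Real.pi * a : ℝ) : ℂ) * p.2) := by fun_prop
  exact h.measurable

lemma norm_exp_aux (a x : ℝ) :
    ‖Complex.exp (Complex.I * ((a : ℝ) : ℂ) * (x : ℂ))‖ = 1 := by
  have : Complex.I * ((a : ℝ) : ℂ) * (x : ℂ) = ((a * x : ℝ) : ℂ) * Complex.I := by push_cast; ring
  rw [this, Complex.norm_exp_ofReal_mul_I]

lemma norm_F_le {δ : ℝ} (hδ : 0 < δ) (a : ℝ) (p : ℝ × ℝ) : ‖F δ a p‖ ≤ δ := by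
  unfold F
  split_ifs
  · rw [norm_mul, norm_exp_aux, mul_one, Complex.norm_real, Real.norm_eq_abs,
      abs_of_nonneg (tri_nonneg _ _)]
    exact tri_le hδ.le _
  · simpa using hδ.le

lemma norm_G_le {δ : ℝ} (hδ : 0 < δ) (a : ℝ) (p : ℝ × ℝ) : ‖G δ a p‖ ≤ δ := by
  unfold G
  split_ifs
  · rw [norm_mul, norm_exp_aux, mul_one, Complex.norm_real, Real.norm_eq_abs,
      abs_of_nonneg (tri_nonneg _ _)]
    exact tri_le hδ.le _
  · simpa using hδ.le

lemma memLp_F (t : ℝ) {δ : ℝ} (hδ : 0 < δ) (a : ℝ) : MemLp (F δ a) 2 (mu t) :=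
  MemLp.of_bound (measurable_F δ a).aestronglyMeasurable δ
    (Filter.Eventually.of_forall fun p => norm_F_le hδ a p)

lemma memLp_G (t : ℝ) {δ : ℝ} (hδ : 0 < δ) (a : ℝ) : MemLp (G δ a) 2 (mu t) :=
  MemLp.of_bound (measurable_G δ a).aestronglyMeasurable δ
    (Filter.Eventually.of_forall fun p => norm_G_le hδ a p)

lemma continuous_expo (l : ℝ × ℝ) : Continuous (expo l) := by
  unfold expo; fun_prop

lemma norm_expo (l p : ℝ × ℝ) : ‖expo l p‖ = 1 := by
  unfold expo
  have : 2 * Real.pi * Complex.I * ((l.1 * p.1 + l.2 * p.2 : ℝ) : ℂ) =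
    ((2 * Real.pi * (l.1 * p.1 + l.2 * p.2) : ℝ) : ℂ) * Complex.I := by push_cast; ring
  rw [this, Complex.norm_exp_ofReal_mul_I]

lemma inner_eq (z w : ℂ) : inner ℂ z w = w * (starRingEnd ℂ) z := by
  simp

/-- a.e. vanishing of a function supported at one point -/
lemma setIntegral_single (t : ℝ) (f : ℝ → ℂ) (hf : ∀ x, x ≠ 0 → f x = 0) :
    ∫ x in Set.Icc t (t + 1), f x = 0 := by
  apply setIntegral_eq_zero_of_ae_eq_zero
  have h0 : ∀ᵐ x : ℝ, x ≠ 0 := by
    simp [ae_iff]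
  filter_upwards [h0] with x hx _
  exact hf x hx

lemma inner_F_b {t δ : ℝ} (hδ : 0 < δ) (h1 : δ ≤ -t) (h2 : δ ≤ t + 1) (a : ℝ) (l : ℝ × ℝ)
    (e : Lp ℂ 2 (mu t))
    (he : (e : ℝ × ℝ → ℂ) =ᵐ[mu t] fun p => ((Real.sqrt 2 : ℝ) : ℂ)⁻¹ * expo l p) :
    inner ℂ ((memLp_F t hδ a).toLp (F δ a)) e =
      ((Real.sqrt 2 : ℝ) : ℂ)⁻¹ * ((Tr δ (2 * Real.pi * (l.1 - a)) : ℝ) : ℂ) := by
  rw [L2.inner_def]
  have hm : Measurable fun p => ((Real.sqrt 2 : ℝ) : ℂ)⁻¹ * expo l p * (starRingEnd ℂ) (F δ a p) := by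
    have := (continuous_expo l).measurable
    have h' := measurable_F δ a
    have h'' : Measurable (fun p => (starRingEnd ℂ) (F δ a p)) :=
      Complex.continuous_conj.measurable.comp h'
    exact (measurable_const.mul this).mul h''
  have hcongr : ∫ p, inner ℂ (((memLp_F t hδ a).toLp (F δ a) : ℝ × ℝ → ℂ) p) ((e : ℝ × ℝ → ℂ) p) ∂(mu t)
      = ∫ p, ((Real.sqrt 2 : ℝ) : ℂ)⁻¹ * expo l p * (starRingEnd ℂ) (F δ a p) ∂(mu t) := by
    apply integral_congr_ae
    filter_upwards [he, (memLp_F t hδ a).coeFn_toLp] with p hp1 hp2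
    rw [hp1, hp2, inner_eq]
  rw [hcongr, integral_mu t _ hm]
  · have hz : ∫ y in Set.Icc t (t + 1), ((Real.sqrt 2 : ℝ) : ℂ)⁻¹ * expo l (0, y) *
        (starRingEnd ℂ) (F δ a (0, y)) = 0 := by
      apply setIntegral_single
      intro x hx
      simp [F, hx]
    rw [hz, add_zero, ← tri_setIntegral hδ h1 h2, ← integral_const_mul]
    apply integral_congr_ae
    filter_upwards with x
    unfold F expo
    simp only [if_true, map_mul, Complex.conj_ofReal, ← Complex.exp_conj, Complex.conj_I,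
      mul_zero, add_zero]
    rw [mul_assoc]
    congr 1
    rw [mul_comm (Complex.exp _), mul_assoc, ← Complex.exp_add]
    congr 2
    push_cast
    ring
  · apply Integrable.of_bound hm.aestronglyMeasurable (‖((Real.sqrt 2 : ℝ) : ℂ)⁻¹‖ * δ)
    filter_upwards with p
    rw [norm_mul, norm_mul, norm_expo, mul_one, RCLike.norm_conj]
    exact mul_le_mul_of_nonneg_left (norm_F_le hδ a p) (norm_nonneg _)

lemma inner_b_G {t δ : ℝ} (hδ : 0 < δ) (h1 : δ ≤ -t) (h2 : δ ≤ t + 1) (a : ℝ) (l : ℝ × ℝ)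
    (e : Lp ℂ 2 (mu t))
    (he : (e : ℝ × ℝ → ℂ) =ᵐ[mu t] fun p => ((Real.sqrt 2 : ℝ) : ℂ)⁻¹ * expo l p) :
    inner ℂ e ((memLp_G t hδ a).toLp (G δ a)) =
      ((Real.sqrt 2 : ℝ) : ℂ)⁻¹ * ((Tr δ (2 * Real.pi * (a - l.2)) : ℝ) : ℂ) := by
  rw [L2.inner_def]
  have hm : Measurable fun p => G δ a p * (starRingEnd ℂ) (((Real.sqrt 2 : ℝ) : ℂ)⁻¹ * expo l p) := by
    have h0 := (continuous_expo l).measurable
    have h' := measurable_G δ a
    have h'' : Measurable (fun p => (starRingEnd ℂ) (((Real.sqrt 2 : ℝ) : ℂ)⁻¹ * expo l p)) :=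
      Complex.continuous_conj.measurable.comp (measurable_const.mul h0)
    exact h'.mul h''
  have hcongr : ∫ p, inner ℂ ((e : ℝ × ℝ → ℂ) p) (((memLp_G t hδ a).toLp (G δ a) : ℝ × ℝ → ℂ) p) ∂(mu t)
      = ∫ p, G δ a p * (starRingEnd ℂ) (((Real.sqrt 2 : ℝ) : ℂ)⁻¹ * expo l p) ∂(mu t) := by
    apply integral_congr_ae
    filter_upwards [he, (memLp_G t hδ a).coeFn_toLp] with p hp1 hp2
    rw [hp1, hp2, inner_eq]
  rw [hcongr, integral_mu t _ hm]
  · have hz : ∫ x in Set.Icc t (t + 1), G δ a (x, 0) *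
        (starRingEnd ℂ) (((Real.sqrt 2 : ℝ) : ℂ)⁻¹ * expo l (x, 0)) = 0 := by
      apply setIntegral_single
      intro x hx
      simp [G, hx]
    rw [hz, zero_add, ← tri_setIntegral hδ h1 h2, ← integral_const_mul]
    apply integral_congr_ae
    filter_upwards with x
    unfold G expo
    simp only [if_true, map_mul, Complex.conj_ofReal, ← Complex.exp_conj, Complex.conj_I,
      mul_zero, zero_add, map_inv₀]
    rw [mul_left_comm]
    congr 1
    rw [mul_assoc, ← Complex.exp_add]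
    congr 2
    push_cast
    simp only [map_ofNat]
    ring
  · apply Integrable.of_bound hm.aestronglyMeasurable (δ * ‖((Real.sqrt 2 : ℝ) : ℂ)⁻¹‖)
    filter_upwards with p
    rw [norm_mul, RCLike.norm_conj, norm_mul, norm_expo, mul_one]
    exact mul_le_mul_of_nonneg_right (norm_G_le hδ a p) (norm_nonneg _)

lemma inner_F_G {t δ : ℝ} (hδ : 0 < δ) (a b : ℝ) :
    inner ℂ ((memLp_F t hδ a).toLp (F δ a)) ((memLp_G t hδ b).toLp (G δ b)) = 0 := by
  rw [L2.inner_def]
  have hm : Measurable fun p => G δ b p * (starRingEnd ℂ) (F δ a p) := by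
    have h' := measurable_G δ b
    have h'' : Measurable (fun p => (starRingEnd ℂ) (F δ a p)) :=
      Complex.continuous_conj.measurable.comp (measurable_F δ a)
    exact h'.mul h''
  have hcongr : ∫ p, inner ℂ (((memLp_F t hδ a).toLp (F δ a) : ℝ × ℝ → ℂ) p)
      (((memLp_G t hδ b).toLp (G δ b) : ℝ × ℝ → ℂ) p) ∂(mu t)
      = ∫ p, G δ b p * (starRingEnd ℂ) (F δ a p) ∂(mu t) := by
    apply integral_congr_ae
    filter_upwards [(memLp_F t hδ a).coeFn_toLp, (memLp_G t hδ b).coeFn_toLp] with p hp1 hp2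
    rw [hp1, hp2, inner_eq]
  rw [hcongr, integral_mu t _ hm]
  · rw [setIntegral_single t (fun x => G δ b (x, 0) * (starRingEnd ℂ) (F δ a (x, 0))),
      setIntegral_single t (fun x => G δ b (0, x) * (starRingEnd ℂ) (F δ a (0, x))), add_zero]
    · intro x hx
      simp [F, hx]
    · intro x hx
      simp [G, hx]
  · apply Integrable.of_bound hm.aestronglyMeasurable (δ * δ)
    filter_upwards with p
    rw [norm_mul, RCLike.norm_conj]
    exact mul_le_mul (norm_G_le hδ b p) (norm_F_le hδ a p) (norm_nonneg _) hδ.le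

/-- **Theorem.** For every `t` with `-1 < t < 0`, in particular for every `-1/2 ≤ t < 0`, there is no
set `Λ ⊂ ℝ²` such that the normalised exponentials `e_l/√2`, `l ∈ Λ`, form an orthonormal basis of
`L²(μ_t)`. -/
theorem result (t : ℝ) (ht : -1 < t) (ht0 : t < 0) : ¬ ∃ Λ : Set (ℝ × ℝ), IsExpONB t Λ := by
  rintro ⟨Λ, b, hb⟩
  set δ : ℝ := min (-t) (t + 1) with hδdef
  have hδ : 0 < δ := lt_min (by linarith) (by linarith)
  have h1 : δ ≤ -t := min_le_left _ _
  have h2 : δ ≤ t + 1 := min_le_right _ _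
  have hs2 : (0:ℝ) < (Real.sqrt 2)⁻¹ := by positivity
  -- `Λ` is nonempty
  have hne : Nonempty Λ := by
    by_contra hcon
    rw [not_nonempty_iff] at hcon
    have h := b.hasSum_inner_mul_inner ((memLp_F t hδ 0).toLp (F δ 0)) ((memLp_F t hδ 0).toLp (F δ 0))
    have h' : HasSum (fun i : Λ => inner ℂ ((memLp_F t hδ 0).toLp (F δ 0)) (b i) *
      inner ℂ (b i) ((memLp_F t hδ 0).toLp (F δ 0))) 0 := by
      convert hasSum_empty
      exact hcon
    have h3 := h.unique h'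
    have h4 : (memLp_F t hδ 0).toLp (F δ 0) = 0 := inner_self_eq_zero.mp h3
    -- pair with the constant function `1/√2`
    have hc : MemLp (fun p : ℝ × ℝ => ((Real.sqrt 2 : ℝ) : ℂ)⁻¹ * expo (0, 0) p) 2 (mu t) := by
      apply MemLp.of_bound (((continuous_expo (0,0)).measurable).const_mul _).aestronglyMeasurable
        ‖((Real.sqrt 2 : ℝ) : ℂ)⁻¹‖
      filter_upwards with p
      rw [norm_mul, norm_expo, mul_one]
    have h5 := inner_F_b hδ h1 h2 0 (0, 0) (hc.toLp _) hc.coeFn_toLp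
    rw [h4, inner_zero_left] at h5
    simp only [sub_self, mul_zero, Tr, if_true] at h5
    have h6 : ((Real.sqrt 2 : ℝ) : ℂ)⁻¹ * ((δ ^ 2 : ℝ) : ℂ) ≠ 0 := by
      rw [← Complex.ofReal_inv, ← Complex.ofReal_mul]
      exact_mod_cast (mul_pos hs2 (pow_pos hδ 2)).ne'
    exact h6 h5.symm
  obtain ⟨l0⟩ := hne
  set a : ℝ := (l0 : ℝ × ℝ).1 with ha
  set c : ℝ := (l0 : ℝ × ℝ).2 with hc
  have h := b.hasSum_inner_mul_inner ((memLp_F t hδ a).toLp (F δ a)) ((memLp_G t hδ c).toLp (G δ c))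
  rw [inner_F_G hδ] at h
  have hterm : ∀ i : Λ, inner ℂ ((memLp_F t hδ a).toLp (F δ a)) (b i) *
      inner ℂ (b i) ((memLp_G t hδ c).toLp (G δ c)) =
      (((Real.sqrt 2)⁻¹ * Tr δ (2 * Real.pi * ((i : ℝ × ℝ).1 - a)) *
        ((Real.sqrt 2)⁻¹ * Tr δ (2 * Real.pi * (c - (i : ℝ × ℝ).2))) : ℝ) : ℂ) := by
    intro i
    rw [inner_F_b hδ h1 h2 a i (b i) (hb i), inner_b_G hδ h1 h2 c i (b i) (hb i)]
    push_cast
    ring
  simp only [hterm] at h
  have h' : HasSum (fun i : Λ => ((Real.sqrt 2)⁻¹ * Tr δ (2 * Real.pi * ((i : ℝ × ℝ).1 - a)) *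
        ((Real.sqrt 2)⁻¹ * Tr δ (2 * Real.pi * (c - (i : ℝ × ℝ).2))) : ℝ)) 0 := by
    rw [← Complex.ofReal_zero] at h
    exact Complex.hasSum_ofReal.mp h
  have hnn : ∀ i : Λ, 0 ≤ (Real.sqrt 2)⁻¹ * Tr δ (2 * Real.pi * ((i : ℝ × ℝ).1 - a)) *
        ((Real.sqrt 2)⁻¹ * Tr δ (2 * Real.pi * (c - (i : ℝ × ℝ).2))) := by
    intro i
    have := Tr_nonneg δ (2 * Real.pi * ((i : ℝ × ℝ).1 - a))
    have := Tr_nonneg δ (2 * Real.pi * (c - (i : ℝ × ℝ).2))
    positivity
  have h0 := (hasSum_zero_iff_of_nonneg hnn).mp h'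
  have h00 := congrFun h0 l0
  simp only [← ha, ← hc, sub_self, mul_zero, Tr, if_true, Pi.zero_apply] at h00
  have : 0 < (Real.sqrt 2)⁻¹ * δ ^ 2 * ((Real.sqrt 2)⁻¹ * δ ^ 2) := by positivity
  linarith

end Pool.Agent.Results.MP_476b1b_an.PlusSpaceNoONB
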